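import Pool.Agent.H45.SE.TarT
import Pool.Agent.H20.SF.FM

/-! # SE, module TCa: images of generic filters under isomorphisms -/

set_option linter.unusedVariables false

open Ordinal Order Set
open scoped ZFSet

namespace SE

open SF

namespace H71

theorem inC {M : V → Prop} {a : V} (h : M a) : In M (fun _ => a) := fun _ => h

/-- the set of the conditions whose image is below an element of `E` -/
theorem pre_mem {M : V → Prop} (BBa : T_BBa) (BBc : T_BBc) (k : ZFm M) {P E π : V} (hP : M P)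
    (hE : M E) (hπ : M π) : M (P.sep fun q => ∃ d ∈ E, Le (mv π q) d) := by
  obtain ⟨-, -, -, -, -, -, -, -, -, -, -, hLe, -⟩ := BBa
  obtain ⟨-, -, hmv, -⟩ := BBc
  have h := Tm.sep (R := fun _ v => ∃ d ∈ v 2, Le (mv (v 3) (v 0)) d) (f := fun _ v => v 0)
    (Dfb.bex ktr_zfm (R := fun _ w => Le (mv (w 4) (w 1)) (w 0)) (f := fun _ v => v 2) (Tm.var 2)
      (hLe.at2 (hmv.at2 (Tm.var 4) (Tm.var 1)) (Tm.var 0))) (Tm.var 0)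
  exact h.1 M k (cons P (cons E (fun _ => π))) (((inC hπ).cons hE).cons hP)

theorem mem_gp {L π p ρ' G q' : V} : q' ∈ gp L π p ρ' G ↔
    q' ∈ Pos L ρ' ∧ ∃ q ∈ G, Le q p ∧ Le (mv π q) q' := ZFSet.mem_sep

/-- `gp` is in the extension -/
theorem gp_mem {M : V → Prop} (BBc : T_BBc) (k : ZFm M) {L π p ρ' G : V} (hL : M L) (hπ : M π)
    (hp : M p) (hρ : M ρ') (hG : M G) : M (gp L π p ρ' G) := by
  obtain ⟨-, -, -, -, -, -, hgp, -⟩ := BBc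
  exact hgp.1 M k (cons L (cons π (cons p (cons ρ' (fun _ => G)))))
    (((((inC hG).cons hρ).cons hp).cons hπ).cons hL)

/-- the inverse of an isomorphism -/
theorem isN_inv (BBc : T_BBc) (TBe : T_TBe) {D : Cx} (hD : D.Ok) {π ρ ρ' p : V}
    (h : D.IsN π ρ ρ' p) : D.IsN (inv π) ρ' ρ (mv π p) := by
  have zN : ZFm D.N := hD.zfc.toZFCm.toZFm
  obtain ⟨-, -, -, -, -, -, -, -, -, hinv⟩ := BBc
  exact ⟨hinv.1 D.N zN (fun _ => π) (inC h.n), h.h', h.h, h.c', h.c,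
    (TBe D.L π ρ ρ' p h.c h.c' h.i).1⟩

/-- the image of a generic filter is generic; one inclusion of the generic extensions -/
theorem half (BBa : T_BBa) (BBc : T_BBc) (BC : T_BC) (BD : T_BD) (BJ : T_BJ) (TBa : T_TBa)
    (TBb : T_TBb) {D : Cx} (hD : D.Ok) {π ρ ρ' p : V} (h : D.IsN π ρ ρ' p) {G : V}
    (hG : D.Gn ρ G) (hpG : p ∈ G) :
    D.Gn ρ' (gp D.L π p ρ' G) ∧ mv π p ∈ gp D.L π p ρ' G ∧
    (∀ q ∈ D.P ρ, Le q p → (mv π q ∈ gp D.L π p ρ' G ↔ q ∈ G)) ∧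
    ∀ x, D.W (gp D.L π p ρ' G) x → D.W G x := by
  have zN : ZFm D.N := hD.zfc.toZFCm.toZFm
  obtain ⟨hLN, -, hHN, hPR, hJ⟩ := BJ D hD
  have hNρ : D.N ρ := hHN ρ h.h
  have hNρ' : D.N ρ' := hHN ρ' h.h'
  obtain ⟨⟨hZ, hNW, hWG, -, -⟩, ⟨hGP, h0G, hup, hjn, hrs⟩, hden⟩ := (hJ ρ hNρ h.c).2 G hG
  have zW : ZFm (D.W G) := hZ.toZFCm.toZFm
  obtain ⟨hIj, hπρ, him, hmp, hmv, hmv', -, -⟩ := TBb D.L π ρ ρ' p h.c h.c' h.i
  obtain ⟨-, -, -, hmemP, -⟩ := BC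
  obtain ⟨-, -, -, hrefl, htrans, -, hOdr, -⟩ := BD
  have hpP : p ∈ Pos D.L ρ := h.i.pp
  have hle : ∀ q ∈ Pos D.L ρ, ∀ r ∈ Pos D.L ρ, (Le (mv π r) (mv π q) ↔ Le r q) := by
    intro q hq r hr
    obtain ⟨a1, a2, -⟩ := (hmemP D.L ρ q).1 hq
    obtain ⟨b1, b2, -⟩ := (hmemP D.L ρ r).1 hr
    exact ((TBa.1 π ρ hIj q a1 a2).2.2.2.1 r b1 b2).1
  have hGG : ∀ q ∈ Pos D.L ρ, Le q p → (mv π q ∈ gp D.L π p ρ' G ↔ q ∈ G) := by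
    intro q hq hqp
    constructor
    · intro hm
      obtain ⟨-, r, hr, hrp, hrq⟩ := mem_gp.1 hm
      exact hup r hr q hq ((hle q hq r (hGP hr)).1 hrq)
    · intro hqG
      have h1 := (hmv q hq hqp).1
      exact mem_gp.2 ⟨h1, q, hqG, hqp, (hrefl D.L ρ' _ h1).1⟩
  refine ⟨⟨⟨fun q hq => (mem_gp.1 hq).1, ⟨mv π p, (hGG p hpP (hrefl D.L ρ p hpP).1).2 hpG⟩, ?_, ?_⟩,
    ?_⟩, (hGG p hpP (hrefl D.L ρ p hpP).1).2 hpG, hGG, ?_⟩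
  · intro a ha b hab
    obtain ⟨haP, q, hq, hqp, hqa⟩ := mem_gp.1 ha
    obtain ⟨-, hb, hle'⟩ := (hOdr D.L ρ' b a).1 hab
    exact mem_gp.2 ⟨hb, q, hq, hqp,
      htrans D.L ρ' b a _ hb haP (hmv q (hGP hq) hqp).1 hqa hle'⟩
  · intro a ha b hb
    obtain ⟨haP, q, hq, hqp, hqa⟩ := mem_gp.1 ha
    obtain ⟨hbP, r, hr, hrp, hrb⟩ := mem_gp.1 hb
    obtain ⟨-, h1, h2, h3⟩ := hjn q hq r hr
    have h4 : Le (jn r q) p := htrans D.L ρ p q _ hpP (hGP hq) (hGP h1) h3 hqp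
    have h5 := hmv _ (hGP h1) h4
    have h6 := (hle q (hGP hq) _ (hGP h1)).2 h3
    have h7 := (hle r (hGP hr) _ (hGP h1)).2 h2
    have h8 := (hmv q (hGP hq) hqp).1
    have h9 := (hmv r (hGP hr) hrp).1
    exact ⟨mv π (jn r q), (hGG _ (hGP h1) h4).2 h1,
      (hOdr D.L ρ' a _).2 ⟨h5.1, haP, htrans D.L ρ' a _ _ haP h8 h5.1 h6 hqa⟩,
      (hOdr D.L ρ' b _).2 ⟨h5.1, hbP, htrans D.L ρ' b _ _ hbP h9 h5.1 h7 hrb⟩⟩
  · intro E hE hdE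
    obtain ⟨r, hrG, hrX, hrp⟩ := hden _ p (pre_mem BBa BBc zN (hPR ρ hNρ).1 hE h.n) hpG (by
      intro q hq hqp
      obtain ⟨h1, h2⟩ := hmv q hq hqp
      obtain ⟨d, hd, hdq⟩ := hdE.2 _ h1
      obtain ⟨hdP, -, hdq'⟩ := (hOdr D.L ρ' _ d).1 hdq
      obtain ⟨r, hr, hrp, rfl⟩ := hmv' d hdP (htrans D.L ρ' _ _ d hmp h1 hdP hdq' h2)
      exact ⟨r, ZFSet.mem_sep.2 ⟨hr, _, hd, (hrefl D.L ρ' _ hdP).1⟩, hr, (hle q hq r hr).1 hdq'⟩)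
    obtain ⟨-, d, hd, hrd⟩ := ZFSet.mem_sep.1 hrX
    exact ⟨d, mem_gp.2 ⟨hdE.1 hd, r, hrG, hrp, hrd⟩, hd⟩
  · intro x hx
    exact SF.H20.fn D.N (D.W G) _ zW hNW (gp_mem BBc zW (hNW _ hLN) (hNW _ h.n)
      (zW.trans _ hWG _ hpG) (hNW _ hNρ') hWG) x hx

end H71

open H71

theorem pf_TCa (BBa : T_BBa) (BBc : T_BBc) (BC : T_BC) (BD : T_BD) (BJ : T_BJ) (TBa : T_TBa)
    (TBb : T_TBb) (TBd : T_TBd) (TBe : T_TBe) : T_TCa := by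
  intro D hD π ρ ρ' p h
  have h' := isN_inv BBc TBe hD h
  refine ⟨h', fun G hG hpG => ?_⟩
  obtain ⟨g1, g2, g3, g4⟩ := half BBa BBc BC BD BJ TBa TBb hD h hG hpG
  obtain ⟨-, -, g7, g8⟩ := half BBa BBc BC BD BJ TBa TBb hD h' g1 g2
  have hHN := (BJ D hD).2.2.1
  obtain ⟨-, ⟨hGP, h0G, hup, hjn, hrs⟩, -⟩ := ((BJ D hD).2.2.2.2 ρ (hHN ρ h.h) h.c).2 G hG
  obtain ⟨-, -, -, -, hmv, hmv', -, -⟩ := TBb D.L π ρ ρ' p h.c h.c' h.i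
  have hpP : p ∈ Pos D.L ρ := h.i.pp
  have hback : ∀ q ∈ Pos D.L ρ, mv (inv π) (mv π q) = q := by
    intro q hq
    obtain ⟨a1, a2, -⟩ := (BC.2.2.2.1 D.L ρ q).1 hq
    exact (((TBd π ρ ρ' h.i.fn).2.2.2.2 h.i.inj h.i.onto).2.2.2.2.2.2.1 q a1 a2).2
  have hlast : gp D.L (inv π) (mv π p) ρ (gp D.L π p ρ' G) = G := by
    ext q
    rw [mem_gp]
    constructor
    · rintro ⟨hq, q', hq', hle, hleq⟩
      obtain ⟨r, hr, hrp, rfl⟩ := hmv' q' (mem_gp.1 hq').1 hle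
      rw [hback r hr] at hleq
      exact hup r ((g3 r hr hrp).1 hq') q hq hleq
    · intro hq
      obtain ⟨-, h1, h2, h3⟩ := hjn p hpG q hq
      refine ⟨hGP hq, mv π (jn q p), (g3 _ (hGP h1) h3).2 h1, (hmv _ (hGP h1) h3).2, ?_⟩
      rw [hback _ (hGP h1)]
      exact h2
  refine ⟨g1, g2, g3, fun x => ⟨g4 x, fun hx => g8 x ?_⟩, hlast⟩
  rw [hlast]
  exact hx

end SE
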